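import Pool.Agent.X136.KP.Upper
import Pool.Agent.X136.KP.Lower
import Pool.Agent.X193.HT.Edge

/-!
# MP_a9eb04_an: the best constant in `[μ] ≤ K_p [[μ]]_c` is `K_p = p^p / (p-1)^(p-1)`

Definitions (`RTree`, `Edge`, `Tbar`, `path`, `Suc`, `Hop`, `energy`, `hardyConst`, `cap`, `isoConst`, `Good`) are in
`Pool.Agent.X136.KP.Defs`.

Upper bound: for `u = I φ` and `t > 0` the function `min (u/t, 1)^(p/(p-1))` is admissible for the capacity of
`{u > t}`; integrating its energy against `p t^(p-1) dt` gives at most `p^p/(p-1)^(p-1)` times the energy of `φ`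
(edge by edge: `S_EDGE`, proved by helper193).  Lower bound: the half-line with `π = 1`,
`μ(k) = k^(1-p) - (k+1)^(1-p)` and `φ_N(j) = j^(-1/p)`, `j ≤ N` (asymptotics `S_ASY`, proved by helper296).
-/

namespace Pool.Agent.Results.MP_a9eb04_an.SharpIsocapacitary

open MeasureTheory Set
open scoped ENNReal NNReal
open Pool.Agent.X136.KP

/-- For every `p > 1`, the smallest constant `K ∈ [0,∞]` such that `[μ] ≤ K [[μ]]_c` for every locally finite rooted
tree, every edge weight `w ≥ 0` and every Borel measure `μ` on `T̄` is `p^p / (p-1)^(p-1)`. -/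
theorem result (p : ℝ) (hp : 1 < p) :
    IsLeast {K : ℝ≥0∞ | ∀ (V : Type) [Countable V] (T : RTree V) (w : Edge T → ℝ≥0)
        (μ : Measure (Tbar T)), hardyConst T p w μ ≤ K * isoConst T p w μ}
      (ENNReal.ofReal (p ^ p / (p - 1) ^ (p - 1))) := by
  constructor
  · intro V _ T w μ
    exact upper T Pool.Agent.X193.HT.t_EDGE hp w μ
  · intro K hK
    apply lower hp K
    refine (hK ℕ lineT (fun _ => 1) (mu p)).trans ?_
    calc K * isoConst lineT p (fun _ => 1) (mu p) ≤ K * 1 := mul_le_mul' le_rfl (iso_line hp)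
      _ = K := mul_one K

end Pool.Agent.Results.MP_a9eb04_an.SharpIsocapacitary
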